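import Pool.Agent.H629.NK.Nik
import Pool.Agent.H629.NK.Kat

/-!
# MP_64e5f1_lc, Q1: yes

There is a family of continuum many non-pathological ideals on `ω`, pairwise Katětov
incomparable, all of which have the Nikodym property and are not totally bounded.
-/

set_option autoImplicit false

namespace Pool.Agent.Results.MP_64e5f1_lc.ContinuumManyNikodym

open Pool.Agent.H629.NK Cardinal

/-- The branch of the binary tree given by `x`, with nodes coded by natural numbers. -/
noncomputable def br (x : ℕ → Bool) (n : ℕ) : ℕ :=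
  Encodable.encode (List.ofFn (fun i : Fin n => x i))

theorem br_inj {x y : ℕ → Bool} {n m : ℕ} (h : br x n = br y m) :
    n = m ∧ ∀ i < n, x i = y i := by
  have h1 := Encodable.encode_injective h
  have h2 : n = m := by
    have := congrArg List.length h1
    simpa using this
  subst h2
  refine ⟨rfl, fun i hi => ?_⟩
  have h3 := List.ofFn_injective h1
  exact congrFun h3 ⟨i, hi⟩

theorem br_infinite (x : ℕ → Bool) : (Set.range (br x)).Infinite :=
  Set.infinite_range_of_injective (fun _ _ h => (br_inj h).1)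

theorem br_finite {x y : ℕ → Bool} (h : x ≠ y) :
    (Set.range (br x) ∩ Set.range (br y)).Finite := by
  obtain ⟨k, hk⟩ := Function.ne_iff.1 h
  refine ((Set.finite_Iic k).image (br x)).subset ?_
  rintro _ ⟨⟨n, rfl⟩, ⟨m, hm⟩⟩
  refine ⟨n, ?_, rfl⟩
  show n ≤ k
  by_contra hcon
  push Not at hcon
  exact hk ((br_inj hm.symm).2 k hcon)

theorem br_diff {x y : ℕ → Bool} (h : x ≠ y) :
    (Set.range (br y) \ Set.range (br x)).Infinite := by
  have h1 := (br_infinite y).sdiff (br_finite h)
  refine h1.mono ?_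
  rintro z ⟨hz1, hz2⟩
  exact ⟨hz1, fun hz3 => hz2 ⟨hz3, hz1⟩⟩

/-- There are continuum many pairwise Katětov incomparable non-pathological ideals on `ω` which
have the Nikodym property and are not totally bounded. -/
theorem result : ∃ F : Set (Set (Set ℕ)), #F = 𝔠 ∧
    (∀ I ∈ F, IsIdeal I ∧ NonPathological I ∧ Nikodym (alg I) ∧ ¬ TotallyBounded I) ∧
    ∀ I ∈ F, ∀ J ∈ F, I ≠ J → ¬ KatetovLE I J ∧ ¬ KatetovLE J I := by
  obtain ⟨S⟩ := exists_sys
  have hne : ∀ x y : ℕ → Bool, x ≠ y →
      ¬ KatetovLE (S.ideal (Set.range (br x))) (S.ideal (Set.range (br y))) :=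
    fun x y h => S.not_katetov (br_diff h)
  have hinj : Function.Injective (fun x : ℕ → Bool => S.ideal (Set.range (br x))) := by
    intro x y hxy
    by_contra h
    apply hne x y h
    refine ⟨id, fun A hA => ?_⟩
    rw [Set.preimage_id]
    have hxy' : S.ideal (Set.range (br x)) = S.ideal (Set.range (br y)) := hxy
    rwa [hxy'] at hA
  refine ⟨Set.range (fun x : ℕ → Bool => S.ideal (Set.range (br x))), ?_, ?_, ?_⟩
  · rw [Cardinal.mk_range_eq _ hinj]
    simp
  · rintro _ ⟨x, rfl⟩
    exact ⟨S.isIdeal (br_infinite x), S.nonPathological _, S.nikodym (br_infinite x),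
      S.not_totallyBounded (br_infinite x)⟩
  · rintro _ ⟨x, rfl⟩ _ ⟨y, rfl⟩ hxy
    have h : x ≠ y := fun h => hxy (by rw [h])
    exact ⟨hne x y h, hne y x h.symm⟩

end Pool.Agent.Results.MP_64e5f1_lc.ContinuumManyNikodym
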